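import Pool.Agent.X257.AE.Mean

/-!
# Digits of almost every real number: tails, slowly growing functions, moments

General consequences of the laws of large numbers in `Pool/Agent/X257/AE/Fun.lean`.
-/

set_option autoImplicit false

open Finset Filter MeasureTheory

namespace Pool.Agent.T6.H39.FL

open Pool.Agent.X257.AE (Avg pre)

open Classical in
/-- the indicator function -/
noncomputable def ind (P : ℤ → Prop) (u : ℤ) : ℝ := if P u then 1 else 0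

theorem ind_nonneg (P : ℤ → Prop) (u : ℤ) : 0 ≤ ind P u := by
  unfold ind
  split_ifs <;> norm_num

theorem ind_sq (P : ℤ → Prop) : (fun u => ind P u ^ 2) = ind P := by
  funext u
  unfold ind
  split_ifs <;> norm_num

open Classical in
theorem card_ind (P : ℤ → Prop) (s : Finset ℕ) (f : ℕ → ℤ) :
    ((s.filter (fun i => P (f i))).card : ℝ) = ∑ i ∈ s, ind P (f i) := by
  rw [card_filter]
  push_cast
  refine sum_congr rfl fun i _ => ?_
  unfold ind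
  split_ifs <;> rfl

open Classical in
/-- the hypotheses -/
structure HT (R : ℤ → ℕ) (Sm : ℤ → Prop) (Z : ℕ → ℤ → Prop) (r0 : ℕ → ℕ) (C : ℕ → ℝ) : Prop where
  C0 : ∀ A, 0 ≤ C A
  tl : ∀ A, 1 ≤ A → ∀ r, r0 A ≤ r → ∃ M0, Avg (ind fun u => Sm u ∧ r ≤ R u)
    (1 / 2 * (1 / (A : ℝ) ^ r)) M0
  zd : ∀ A, 1 ≤ A → ∀ ε : ℝ, 0 < ε → ∃ M0, Avg (ind (Z A)) ε M0
  m1 : ∀ A, 1 ≤ A → ∃ M0, Avg (fun u => if Sm u ∧ ¬ Z A u then (A : ℝ) ^ R u else 0) (C A) M0 ∧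
    Avg (fun u => (if Sm u ∧ ¬ Z A u then (A : ℝ) ^ R u else 0) ^ 2) (C A) M0

variable {R : ℤ → ℕ} {Sm : ℤ → Prop} {Z : ℕ → ℤ → Prop} {r0 : ℕ → ℕ} {C : ℕ → ℝ}

theorem tendsto_log : Tendsto (fun x : ℕ => Real.log (x : ℝ)) atTop atTop :=
  Real.tendsto_log_atTop.comp tendsto_natCast_atTop_atTop

theorem exists_r (r1 : ℕ) {ε : ℝ} (hε : 0 < ε) : ∃ r, r1 ≤ r ∧ 1 / ((2 : ℕ) : ℝ) ^ r ≤ ε := by
  obtain ⟨r2, h⟩ := exists_pow_lt_of_lt_one hε (show (1 / 2 : ℝ) < 1 by norm_num)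
  refine ⟨max r1 r2, le_max_left _ _, ?_⟩
  have e1 : (1 / 2 : ℝ) ^ (max r1 r2) ≤ ε :=
    (pow_le_pow_of_le_one (by norm_num) (by norm_num) (le_max_right _ _)).trans h.le
  rw [one_div, inv_pow] at e1
  rw [one_div]
  exact_mod_cast e1

open Classical in
theorem logs (h : HT R Sm Z r0 C) : ∀ᵐ θ : ℝ, ∀ b : ℕ, 2 ≤ b →
    (∀ A : ℕ, 1 ≤ A → ∀ r : ℕ, r0 A ≤ r → ∀ᶠ x : ℕ in atTop,
      ∑ m ∈ (Icc 1 x).filter (fun m => Sm (pre b m θ) ∧ r ≤ R (pre b m θ)), 1 / (m : ℝ) ≤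
        Real.log x / (A : ℝ) ^ r) ∧
    (∀ g : ℕ → ℝ, Tendsto g atTop atTop → ∀ ε : ℝ, 0 < ε → ∀ᶠ x : ℕ in atTop,
      ∑ m ∈ (Icc 1 x).filter (fun m => Sm (pre b m θ) ∧ g m < R (pre b m θ)), 1 / (m : ℝ) ≤
        ε * Real.log x) ∧
    ∀ A : ℕ, 1 ≤ A →
      (∀ ε : ℝ, 0 < ε → ∀ᶠ x : ℕ in atTop,
        ∑ m ∈ (Icc 1 x).filter (fun m => Z A (pre b m θ)), 1 / (m : ℝ) ≤ ε * Real.log x) ∧
      ∀ᶠ x : ℕ in atTop,
        ∑ m ∈ (Icc 1 x).filter (fun m => Sm (pre b m θ) ∧ ¬ Z A (pre b m θ)),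
          (A : ℝ) ^ R (pre b m θ) / (m : ℝ) ≤ (C A + 1) * Real.log x := by
  have h1 : ∀ᵐ θ : ℝ, ∀ A : ℕ, 1 ≤ A → ∀ r : ℕ, r0 A ≤ r → ∀ b : ℕ, 2 ≤ b → ∀ ε : ℝ, 0 < ε →
      ∀ᶠ x : ℕ in atTop, ∑ n ∈ Icc 1 x, ind (fun u => Sm u ∧ r ≤ R u) (pre b n θ) / (n : ℝ) ≤
        (1 / 2 * (1 / (A : ℝ) ^ r) + ε) * Real.log x := by
    rw [ae_all_iff]
    intro A
    by_cases hA : 1 ≤ A
    swap
    · exact Eventually.of_forall fun θ hc => absurd hc hA
    simp only [hA, forall_true_left]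
    rw [ae_all_iff]
    intro r
    by_cases hr : r0 A ≤ r
    swap
    · exact Eventually.of_forall fun θ hc => absurd hc hr
    simp only [hr, forall_true_left]
    obtain ⟨M0, hM⟩ := h.tl A hA r hr
    exact Pool.Agent.X257.AE.ae_flog (ind_nonneg _) hM (by rw [ind_sq]; exact hM)
  have h2 : ∀ᵐ θ : ℝ, ∀ A : ℕ, 1 ≤ A → ∀ j : ℕ, ∀ b : ℕ, 2 ≤ b → ∀ ε : ℝ, 0 < ε →
      ∀ᶠ x : ℕ in atTop, ∑ n ∈ Icc 1 x, ind (Z A) (pre b n θ) / (n : ℝ) ≤
        (1 / ((j : ℝ) + 1) + ε) * Real.log x := by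
    rw [ae_all_iff]
    intro A
    by_cases hA : 1 ≤ A
    swap
    · exact Eventually.of_forall fun θ hc => absurd hc hA
    simp only [hA, forall_true_left]
    rw [ae_all_iff]
    intro j
    obtain ⟨M0, hM⟩ := h.zd A hA (1 / ((j : ℝ) + 1)) (by positivity)
    exact Pool.Agent.X257.AE.ae_flog (ind_nonneg _) hM (by rw [ind_sq]; exact hM)
  have h3 : ∀ᵐ θ : ℝ, ∀ A : ℕ, 1 ≤ A → ∀ b : ℕ, 2 ≤ b → ∀ ε : ℝ, 0 < ε →
      ∀ᶠ x : ℕ in atTop, ∑ n ∈ Icc 1 x, (if Sm (pre b n θ) ∧ ¬ Z A (pre b n θ) then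
        (A : ℝ) ^ R (pre b n θ) else 0) / (n : ℝ) ≤ (C A + ε) * Real.log x := by
    rw [ae_all_iff]
    intro A
    by_cases hA : 1 ≤ A
    swap
    · exact Eventually.of_forall fun θ hc => absurd hc hA
    simp only [hA, forall_true_left]
    obtain ⟨M0, hM, hM2⟩ := h.m1 A hA
    exact Pool.Agent.X257.AE.ae_flog (f := fun u => if Sm u ∧ ¬ Z A u then (A : ℝ) ^ R u else 0)
      (fun u => by split_ifs <;> positivity) hM hM2
  filter_upwards [h1, h2, h3] with θ g1 g2 g3 b hb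
  have key : ∀ A : ℕ, 1 ≤ A → ∀ r : ℕ, r0 A ≤ r → ∀ᶠ x : ℕ in atTop,
      ∑ m ∈ (Icc 1 x).filter (fun m => Sm (pre b m θ) ∧ r ≤ R (pre b m θ)), 1 / (m : ℝ) ≤
        Real.log x / (A : ℝ) ^ r := by
    intro A hA r hr
    have hA0 : (0 : ℝ) < A := by
      have : 0 < A := hA
      exact_mod_cast this
    filter_upwards [g1 A hA r hr b hb (1 / 2 * (1 / (A : ℝ) ^ r)) (by positivity)] with x hx
    rw [sum_filter]
    have e : ∑ m ∈ Icc 1 x, (if Sm (pre b m θ) ∧ r ≤ R (pre b m θ) then 1 / (m : ℝ) else 0) =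
        ∑ n ∈ Icc 1 x, ind (fun u => Sm u ∧ r ≤ R u) (pre b n θ) / (n : ℝ) := by
      refine sum_congr rfl fun n _ => ?_
      unfold ind
      split_ifs <;> simp
    rw [e]
    refine hx.trans (le_of_eq ?_)
    ring
  refine ⟨key, fun g hg ε hε => ?_, fun A hA => ⟨fun ε hε => ?_, ?_⟩⟩
  · obtain ⟨r, hr1, hr2⟩ := exists_r (r0 2) (show (0 : ℝ) < ε / 2 by positivity)
    obtain ⟨D, hD⟩ := (hg.eventually_ge_atTop (r : ℝ)).exists_forall_of_atTop
    obtain ⟨K, hK⟩ : ∃ K : ℝ, K = ∑ m ∈ Icc 1 D, 1 / (m : ℝ) := ⟨_, rfl⟩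
    filter_upwards [key 2 (by norm_num) r hr1, tendsto_log.eventually_ge_atTop (K / (ε / 2)),
      tendsto_log.eventually_ge_atTop 0] with x hx hx2 hx0
    have h4 : ∑ m ∈ (Icc 1 x).filter (fun m => Sm (pre b m θ) ∧ g m < R (pre b m θ)), 1 / (m : ℝ) ≤
        ∑ m ∈ (Icc 1 x).filter (fun m => Sm (pre b m θ) ∧ r ≤ R (pre b m θ)), 1 / (m : ℝ) + K := by
      have hnn : ∀ m : ℕ, 0 ≤ 1 / (m : ℝ) := fun m => by positivity
      rw [hK]
      refine le_trans (sum_le_sum_of_subset_of_nonneg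
        (t := (Icc 1 x).filter (fun m => Sm (pre b m θ) ∧ r ≤ R (pre b m θ)) ∪ Icc 1 D)
        (fun m hm => ?_) fun m _ _ => hnn m) ?_
      · obtain ⟨a1, a2, a3⟩ := mem_filter.1 hm
        rw [mem_union]
        rcases le_or_gt D m with hDm | hDm
        · left
          have e1 : (r : ℝ) < R (pre b m θ) := lt_of_le_of_lt (hD m hDm) a3
          exact mem_filter.2 ⟨a1, a2, by exact_mod_cast e1.le⟩
        · right
          exact mem_Icc.2 ⟨(mem_Icc.1 a1).1, hDm.le⟩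
      · rw [← sum_union_inter]
        exact le_add_of_nonneg_right (sum_nonneg fun m _ => hnn m)
    refine h4.trans ?_
    have h5 : Real.log x / ((2 : ℕ) : ℝ) ^ r ≤ ε / 2 * Real.log x := by
      rw [div_eq_mul_one_div, mul_comm]
      exact mul_le_mul_of_nonneg_right hr2 hx0
    have h6 : K ≤ ε / 2 * Real.log x := by
      rw [div_le_iff₀ (by positivity)] at hx2
      linarith
    linarith
  · obtain ⟨j, hj⟩ := exists_nat_one_div_lt (show (0 : ℝ) < ε / 2 by positivity)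
    filter_upwards [g2 A hA j b hb (ε / 2) (by positivity), tendsto_log.eventually_ge_atTop 0]
      with x hx hx0
    rw [sum_filter]
    have e : ∑ m ∈ Icc 1 x, (if Z A (pre b m θ) then 1 / (m : ℝ) else 0) =
        ∑ n ∈ Icc 1 x, ind (Z A) (pre b n θ) / (n : ℝ) := by
      refine sum_congr rfl fun n _ => ?_
      unfold ind
      split_ifs <;> simp
    rw [e]
    exact hx.trans (mul_le_mul_of_nonneg_right (by linarith) hx0)
  · filter_upwards [g3 A hA b hb 1 one_pos] with x hx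
    rw [sum_filter]
    refine le_trans (le_of_eq (sum_congr rfl fun n _ => ?_)) hx
    split_ifs
    · rfl
    · simp

open Classical in
theorem seqs (h : HT R Sm Z r0 C) (n : ℕ → ℕ) (h0 : 1 ≤ n 0) (hn : ∀ i, 2 * n i ≤ n (i + 1)) :
    ∀ᵐ θ : ℝ, ∀ b : ℕ, 2 ≤ b →
    (∀ A : ℕ, 1 ≤ A → ∀ r : ℕ, r0 A ≤ r → ∀ᶠ J : ℕ in atTop,
      (((range J).filter (fun i => Sm (pre b (n i) θ) ∧ r ≤ R (pre b (n i) θ))).card : ℝ) ≤
        J / (A : ℝ) ^ r) ∧
    (∀ g : ℕ → ℝ, Tendsto g atTop atTop → ∀ ε : ℝ, 0 < ε → ∀ᶠ J : ℕ in atTop,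
      (((range J).filter (fun i => Sm (pre b (n i) θ) ∧ g i < R (pre b (n i) θ))).card : ℝ) ≤
        ε * J) ∧
    ∀ A : ℕ, 1 ≤ A →
      (∀ ε : ℝ, 0 < ε → ∀ᶠ J : ℕ in atTop,
        (((range J).filter (fun i => Z A (pre b (n i) θ))).card : ℝ) ≤ ε * J) ∧
      ∀ᶠ J : ℕ in atTop,
        ∑ i ∈ (range J).filter (fun i => Sm (pre b (n i) θ) ∧ ¬ Z A (pre b (n i) θ)),
          (A : ℝ) ^ R (pre b (n i) θ) ≤ (C A + 1) * J := by
  have h1 : ∀ᵐ θ : ℝ, ∀ A : ℕ, 1 ≤ A → ∀ r : ℕ, r0 A ≤ r → ∀ b : ℕ, 2 ≤ b → ∀ ε : ℝ, 0 < ε →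
      ∀ᶠ J : ℕ in atTop, ∑ i ∈ range J, ind (fun u => Sm u ∧ r ≤ R u) (pre b (n i) θ) ≤
        (1 / 2 * (1 / (A : ℝ) ^ r) + ε) * J := by
    rw [ae_all_iff]
    intro A
    by_cases hA : 1 ≤ A
    swap
    · exact Eventually.of_forall fun θ hc => absurd hc hA
    simp only [hA, forall_true_left]
    rw [ae_all_iff]
    intro r
    by_cases hr : r0 A ≤ r
    swap
    · exact Eventually.of_forall fun θ hc => absurd hc hr
    simp only [hr, forall_true_left]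
    obtain ⟨M0, hM⟩ := h.tl A hA r hr
    exact Pool.Agent.X257.AE.ae_fseq (ind_nonneg _) hM (by rw [ind_sq]; exact hM) n h0 hn
  have h2 : ∀ᵐ θ : ℝ, ∀ A : ℕ, 1 ≤ A → ∀ j : ℕ, ∀ b : ℕ, 2 ≤ b → ∀ ε : ℝ, 0 < ε →
      ∀ᶠ J : ℕ in atTop, ∑ i ∈ range J, ind (Z A) (pre b (n i) θ) ≤
        (1 / ((j : ℝ) + 1) + ε) * J := by
    rw [ae_all_iff]
    intro A
    by_cases hA : 1 ≤ A
    swap
    · exact Eventually.of_forall fun θ hc => absurd hc hA
    simp only [hA, forall_true_left]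
    rw [ae_all_iff]
    intro j
    obtain ⟨M0, hM⟩ := h.zd A hA (1 / ((j : ℝ) + 1)) (by positivity)
    exact Pool.Agent.X257.AE.ae_fseq (ind_nonneg _) hM (by rw [ind_sq]; exact hM) n h0 hn
  have h3 : ∀ᵐ θ : ℝ, ∀ A : ℕ, 1 ≤ A → ∀ b : ℕ, 2 ≤ b → ∀ ε : ℝ, 0 < ε →
      ∀ᶠ J : ℕ in atTop, ∑ i ∈ range J, (if Sm (pre b (n i) θ) ∧ ¬ Z A (pre b (n i) θ) then
        (A : ℝ) ^ R (pre b (n i) θ) else 0) ≤ (C A + ε) * J := by
    rw [ae_all_iff]
    intro A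
    by_cases hA : 1 ≤ A
    swap
    · exact Eventually.of_forall fun θ hc => absurd hc hA
    simp only [hA, forall_true_left]
    obtain ⟨M0, hM, hM2⟩ := h.m1 A hA
    exact Pool.Agent.X257.AE.ae_fseq (f := fun u => if Sm u ∧ ¬ Z A u then (A : ℝ) ^ R u else 0)
      (fun u => by split_ifs <;> positivity) hM hM2 n h0 hn
  have hJt : Tendsto (fun J : ℕ => (J : ℝ)) atTop atTop := tendsto_natCast_atTop_atTop
  filter_upwards [h1, h2, h3] with θ g1 g2 g3 b hb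
  have key : ∀ A : ℕ, 1 ≤ A → ∀ r : ℕ, r0 A ≤ r → ∀ᶠ J : ℕ in atTop,
      (((range J).filter (fun i => Sm (pre b (n i) θ) ∧ r ≤ R (pre b (n i) θ))).card : ℝ) ≤
        J / (A : ℝ) ^ r := by
    intro A hA r hr
    have hA0 : (0 : ℝ) < A := by
      have : 0 < A := hA
      exact_mod_cast this
    filter_upwards [g1 A hA r hr b hb (1 / 2 * (1 / (A : ℝ) ^ r)) (by positivity)] with J hJ
    refine le_trans (le_of_eq ?_) (hJ.trans (le_of_eq ?_))
    · rw [card_filter]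
      push_cast
      refine sum_congr rfl fun i _ => ?_
      unfold ind
      split_ifs <;> rfl
    · ring
  refine ⟨key, fun g hg ε hε => ?_, fun A hA => ⟨fun ε hε => ?_, ?_⟩⟩
  · obtain ⟨r, hr1, hr2⟩ := exists_r (r0 2) (show (0 : ℝ) < ε / 2 by positivity)
    obtain ⟨D, hD⟩ := (hg.eventually_ge_atTop (r : ℝ)).exists_forall_of_atTop
    filter_upwards [key 2 (by norm_num) r hr1, hJt.eventually_ge_atTop ((D : ℝ) / (ε / 2))]
      with J hJ hJ2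
    have h4 : ((range J).filter (fun i => Sm (pre b (n i) θ) ∧ g i < R (pre b (n i) θ))).card ≤
        ((range J).filter (fun i => Sm (pre b (n i) θ) ∧ r ≤ R (pre b (n i) θ))).card + D := by
      refine (card_le_card (t := (range J).filter
        (fun i => Sm (pre b (n i) θ) ∧ r ≤ R (pre b (n i) θ)) ∪ range D) fun i hi => ?_).trans
          ((card_union_le _ _).trans (by rw [card_range]))
      obtain ⟨a1, a2, a3⟩ := mem_filter.1 hi
      rw [mem_union]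
      rcases le_or_gt D i with hDm | hDm
      · left
        have e1 : (r : ℝ) < R (pre b (n i) θ) := lt_of_le_of_lt (hD i hDm) a3
        exact mem_filter.2 ⟨a1, a2, by exact_mod_cast e1.le⟩
      · right
        exact mem_range.2 hDm
    have h5 : (((range J).filter (fun i => Sm (pre b (n i) θ) ∧
        g i < R (pre b (n i) θ))).card : ℝ) ≤
        (((range J).filter (fun i => Sm (pre b (n i) θ) ∧ r ≤ R (pre b (n i) θ))).card : ℝ) + D := by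
      exact_mod_cast h4
    have h6 : (J : ℝ) / ((2 : ℕ) : ℝ) ^ r ≤ ε / 2 * J := by
      rw [div_eq_mul_one_div, mul_comm]
      exact mul_le_mul_of_nonneg_right hr2 (Nat.cast_nonneg J)
    have h7 : (D : ℝ) ≤ ε / 2 * J := by
      rw [div_le_iff₀ (by positivity)] at hJ2
      linarith
    linarith
  · obtain ⟨j, hj⟩ := exists_nat_one_div_lt (show (0 : ℝ) < ε / 2 by positivity)
    filter_upwards [g2 A hA j b hb (ε / 2) (by positivity)] with J hJ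
    have e := card_ind (Z A) (range J) (fun i => pre b (n i) θ)
    beta_reduce at e
    rw [e]
    exact hJ.trans (mul_le_mul_of_nonneg_right (by linarith) (Nat.cast_nonneg J))
  · filter_upwards [g3 A hA b hb 1 one_pos] with J hJ
    rw [sum_filter]
    exact hJ

end Pool.Agent.T6.H39.FL
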