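import Pool.Agent.X257.AE.Mean
import Pool.Agent.X257.AE.Approx

/-!
# Fractions with a given denominator in an interval
-/

set_option autoImplicit false

open Finset

namespace Pool.Agent.T6.H39.FL

open Pool.Agent.X257.AE (Avg nd)

/-- the fractions `t = u / w` in lowest terms with `N < u ≤ N + M` -/
def Frac (N : ℤ) (M w : ℕ) : Set ℚ := {t | t.den = w ∧ N < t.num ∧ t.num ≤ N + M}

theorem nd_eq {N : ℤ} {M w : ℕ} {t : ℚ} (h : t ∈ Frac N M w) : nd t = (t.num, (w : ℤ)) := by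
  unfold nd
  rw [h.1]

theorem finite_frac (N : ℤ) (M w : ℕ) : (Frac N M w).Finite := by
  refine (((Ioc N (N + M)).image fun u : ℤ => (u : ℚ) / w).finite_toSet).subset fun t ht => ?_
  rw [mem_coe, mem_image]
  refine ⟨t.num, mem_Ioc.2 ht.2, ?_⟩
  have h1 : (w : ℚ) = t.den := by
    have := ht.1
    exact_mod_cast this.symm
  rw [h1]
  exact Rat.num_div_den t

theorem frac_sum (N : ℤ) (M w : ℕ) (F : ℚ → ℝ) (g : ℤ × ℤ → ℝ) (hg : ∀ x, 0 ≤ g x)
    (h : ∀ t ∈ Frac N M w, F t ≤ g (nd t)) :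
    ∑ᶠ t ∈ Frac N M w, F t ≤ ∑ u ∈ Ioc N (N + M), g (u, w) := by
  classical
  have hf := finite_frac N M w
  rw [finsum_mem_eq_finite_toFinset_sum _ hf]
  calc ∑ t ∈ hf.toFinset, F t ≤ ∑ t ∈ hf.toFinset, g (t.num, (w : ℤ)) := by
        refine sum_le_sum fun t ht => ?_
        have ht' := hf.mem_toFinset.1 ht
        rw [← nd_eq ht']
        exact h t ht'
    _ = ∑ u ∈ hf.toFinset.image (fun t : ℚ => t.num), g (u, (w : ℤ)) := by
        rw [sum_image]
        intro t ht t' ht' e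
        have h1 := (hf.mem_toFinset.1 (mem_coe.1 ht)).1
        have h2 := (hf.mem_toFinset.1 (mem_coe.1 ht')).1
        exact Rat.ext e (h1.trans h2.symm)
    _ ≤ _ := by
        refine sum_le_sum_of_subset_of_nonneg (fun u hu => ?_) fun u _ _ => hg _
        obtain ⟨t, ht, rfl⟩ := mem_image.1 hu
        exact mem_Ioc.2 (hf.mem_toFinset.1 ht).2

open Classical in
/-- the indicator function -/
noncomputable def indQ (X : Set ℚ) (t : ℚ) : ℝ := if t ∈ X then 1 else 0

theorem indQ_nonneg (X : Set ℚ) (t : ℚ) : 0 ≤ indQ X t := by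
  unfold indQ
  split_ifs <;> norm_num

theorem ncard_frac (N : ℤ) (M w : ℕ) (X : Set ℚ) :
    ((Frac N M w ∩ X).ncard : ℝ) = ∑ᶠ t ∈ Frac N M w, indQ X t := by
  classical
  have hf := finite_frac N M w
  rw [finsum_mem_eq_finite_toFinset_sum _ hf, Set.ncard_eq_toFinset_card _ (hf.inter_of_left X)]
  have e : (hf.inter_of_left X).toFinset = hf.toFinset.filter (fun t => t ∈ X) := by
    ext t
    rw [Set.Finite.mem_toFinset, mem_filter, Set.Finite.mem_toFinset]
    rfl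
  rw [e, card_filter]
  push_cast
  refine sum_congr rfl fun t _ => ?_
  unfold indQ
  split_ifs <;> rfl

theorem sum_frac (N : ℤ) (M w : ℕ) (X : Set ℚ) (f : ℚ → ℝ) (F : ℚ → ℝ)
    (hF : ∀ t, 0 ≤ F t) (h : ∀ t ∈ X, f t ≤ F t) :
    ∑ᶠ t ∈ Frac N M w ∩ X, f t ≤ ∑ᶠ t ∈ Frac N M w, F t := by
  classical
  have hf := finite_frac N M w
  rw [finsum_mem_eq_finite_toFinset_sum _ hf,
    finsum_mem_eq_finite_toFinset_sum _ (hf.inter_of_left X)]
  refine (sum_le_sum fun t ht => h t ?_).trans (sum_le_sum_of_subset_of_nonneg (fun t ht => ?_)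
    fun t _ _ => hF t)
  · exact ((hf.inter_of_left X).mem_toFinset.1 ht).2
  · exact hf.mem_toFinset.2 ((hf.inter_of_left X).mem_toFinset.1 ht).1

theorem cross {u : ℤ} {w e d : ℕ} (he : 1 ≤ e) (hd : 1 ≤ d) (hw : w = e * d)
    (h : ((u : ℚ) / w).den = d) : u = e * ((u : ℚ) / w).num := by
  have h1 := Rat.num_div_den ((u : ℚ) / w)
  rw [h] at h1
  have hd0 : (d : ℚ) ≠ 0 := by
    have : d ≠ 0 := by omega
    exact_mod_cast this
  have he0 : (e : ℚ) ≠ 0 := by
    have : e ≠ 0 := by omega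
    exact_mod_cast this
  have hw' : (w : ℚ) = e * d := by exact_mod_cast hw
  have h2 : ((((u : ℚ) / w).num : ℤ) : ℚ) = u / w * d := by
    rw [div_eq_iff hd0] at h1
    exact h1
  have h3 : (u : ℚ) = e * ((((u : ℚ) / w).num : ℤ) : ℚ) := by
    rw [h2, hw']
    field_simp
  exact_mod_cast h3

/-- functions on the rational numbers with the denominators dividing `w` -/
theorem avg_div {F : ℚ → ℝ} (hF : ∀ t, 0 ≤ F t) (p : ℕ → ℝ) (M0 : ℕ) {w : ℕ} (hw : 1 ≤ w)
    (h : ∀ d ∈ w.divisors, ∀ (N : ℤ) (M : ℕ), M0 ≤ M → |N| ≤ (M : ℤ) ^ 3 →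
      ∑ᶠ t ∈ Frac N M d, F t ≤ p d * M) :
    Avg (fun u => F ((u : ℚ) / w)) (∑ d ∈ w.divisors, p d) M0 := by
  classical
  intro N M hM hN
  have hden : ∀ u : ℤ, ((u : ℚ) / w).den ∣ w := by
    intro u
    have h1 := Rat.den_dvd u (w : ℤ)
    rw [Rat.divInt_eq_div] at h1
    exact_mod_cast h1
  have h1 : ∑ u ∈ Ioc N (N + M), F ((u : ℚ) / w) =
      ∑ d ∈ w.divisors, ∑ u ∈ (Ioc N (N + (M : ℤ))).filter (fun u : ℤ => ((u : ℚ) / w).den = d),
        F ((u : ℚ) / w) :=
    (sum_fiberwise_of_maps_to (fun u _ => Nat.mem_divisors.2 ⟨hden u, by omega⟩) _).symm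
  change ∑ u ∈ Ioc N (N + M), F ((u : ℚ) / w) ≤ _
  rw [h1, sum_mul]
  refine sum_le_sum fun d hd => ?_
  obtain ⟨e, he⟩ := (Nat.mem_divisors.1 hd).1
  have hd1 : 1 ≤ d := Nat.pos_of_mem_divisors hd
  have he1 : 1 ≤ e := by
    rcases Nat.eq_zero_or_pos e with rfl | h2
    · rw [mul_zero] at he
      omega
    · exact h2
  have he1' : (1 : ℤ) ≤ e := by exact_mod_cast he1
  have hed : w = e * d := by rw [he, mul_comm]
  have hdiv1 : (e : ℤ) * (N / e) ≤ N := Int.mul_ediv_self_le (by omega)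
  have hdiv2 : N < (e : ℤ) * (N / e) + e := Int.lt_mul_ediv_self_add (by omega)
  refine le_trans ?_ (h d hd (N / e) M hM ?_)
  · have hf := finite_frac (N / e) M d
    rw [finsum_mem_eq_finite_toFinset_sum _ hf]
    have hinj : Set.InjOn (fun u : ℤ => (u : ℚ) / w)
        ((Ioc N (N + (M : ℤ))).filter (fun u : ℤ => ((u : ℚ) / w).den = d) : Finset ℤ) := by
      intro u _ u' _ e1
      have hw0 : (w : ℚ) ≠ 0 := by
        have : w ≠ 0 := by omega
        exact_mod_cast this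
      have e2 : (u : ℚ) / w = (u' : ℚ) / w := e1
      rw [div_left_inj' hw0] at e2
      exact_mod_cast e2
    rw [← sum_image (f := F) hinj]
    refine sum_le_sum_of_subset_of_nonneg (fun t ht => ?_) fun t _ _ => hF t
    obtain ⟨u, hu, rfl⟩ := mem_image.1 ht
    obtain ⟨hu1, hu2⟩ := mem_filter.1 hu
    rw [mem_Ioc] at hu1
    have hc := cross he1 hd1 hed hu2
    refine hf.mem_toFinset.2 ⟨hu2, ?_, ?_⟩
    · by_contra hcon
      push Not at hcon
      have : (e : ℤ) * ((u : ℚ) / w).num ≤ e * (N / e) :=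
        mul_le_mul_of_nonneg_left hcon (by omega)
      omega
    · by_contra hcon
      push Not at hcon
      have h3 : N / e + M + 1 ≤ ((u : ℚ) / w).num := hcon
      have h4 : (e : ℤ) * (N / e + M + 1) ≤ e * ((u : ℚ) / w).num :=
        mul_le_mul_of_nonneg_left h3 (by omega)
      have h5 : (M : ℤ) ≤ e * M := by nlinarith [Int.natCast_nonneg M]
      have h6 : (e : ℤ) * (N / e + M + 1) = e * (N / e) + e * M + e := by ring
      omega
  · refine le_trans ?_ hN
    rw [Int.abs_eq_natAbs, Int.abs_eq_natAbs]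
    exact_mod_cast Int.natAbs_ediv_le_natAbs N e

end Pool.Agent.T6.H39.FL
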