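import Pool.Agent.T6.H39.FL.Avg
import Pool.Agent.X257.AE.BoxBad

/-!
# Fixed denominator: weighted moments and pairs of small weight
-/

set_option autoImplicit false

open Finset

namespace Pool.Agent.T6.H39.FL

open Pool.Agent.W262.RK Pool.Agent.W307.RT Pool.Agent.W307.SE Pool.Agent.TH344.DT
  Pool.Agent.TH344.JG Pool.Agent.TH344.BF Pool.Agent.TH344.SG Pool.Agent.TH344.GT
  Pool.Agent.TH344.BF.BadBAux
open Pool.Agent.X257.AE (indP)
open Pool.Agent.X257.AE.BT (one_d)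
open Pool.Agent.TH841.PM.BADf (Ex mem_Ex normal')

variable {n : ℕ}

/-- weighted moments over short intervals for the denominator `w` -/
theorem line_w (F : Fam n) (h1 : ∀ j, (F.l j).1 ≠ 0) {k : ℕ} (hk : 1 ≤ k) :
    ∃ T : Finset (Fin 3 × Fin n → ℝ), (∀ t ∈ T, ∀ j, 0 < t j) ∧ (∀ t ∈ T, 1 < ∏ j, t j) ∧
      ∀ B : ℕ, ∃ C : ℝ, 0 ≤ C ∧ ∀ (N w : ℤ) (X : ℕ), 1 ≤ X → w ≠ 0 → N.natAbs ≤ X ^ B →
        w.natAbs ≤ X ^ B →
        ∑ u ∈ Ioc N (N + X), WBl F.l F.m F.a k T (u, w) ≤ C * X * gg w ^ (2 * (3 * n)) := by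
  classical
  have hM := mafk
  obtain ⟨l, m, a, n0, hn, hm, ha, hl, hF⟩ := F
  dsimp only at h1 ⊢
  set α : Fin 3 × Fin n → ℤ := fun j => (l j).1 + 0 * (l j).2 with hα
  set β : Fin 3 × Fin n → ℤ := fun j => (l j).2 with hβ
  have hα0 : ∀ j, α j ≠ 0 := by
    intro j
    rw [hα]
    simpa using h1 j
  have hcls : ∀ j, cl n j ≠ 3 := by
    intro j
    unfold cl
    exact (Fin.castSucc_lt_last j.1).ne
  have hres : ∀ j j', j ≠ j' → Res α β j j' ≠ 0 := by
    intro j j' hj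
    have h1 := hl j j' hj
    unfold Res
    intro h2
    apply h1
    rw [hα, hβ] at h2
    linear_combination h2
  have hcard : ∀ k : Fin 3, (fc (cl n) k).card = n := by
    intro k
    rw [fc_cl, card_image_of_injective _ (fun i j h => (Prod.mk.inj h).2), card_univ,
      Fintype.card_fin]
  have hkap : ∀ j, kapM (cl n) a m α β j ≠ 0 := by
    intro j
    unfold kapM
    refine mul_ne_zero ?_ (mul_ne_zero (ha _) (prod_ne_zero_iff.2 fun l' hl' => ?_))
    · unfold sgM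
      split_ifs <;> norm_num
    · apply pow_ne_zero
      apply hres
      intro h
      subst h
      have h1 := (mem_filter.1 hl').2
      unfold cl at h1
      rcases j with ⟨k, i⟩
      have h2 : k = cpM k.castSucc := Fin.castSucc_injective _ h1
      revert h2
      unfold cpM
      fin_cases k <;> simp
  obtain ⟨T, hT1, hT2, hT3⟩ := mafk_cl hM n0 hk (kapM (cl n) a m α β) hkap
  refine ⟨T, hT1, hT2, fun B => ?_⟩
  obtain ⟨C, hC0, hC⟩ := avgl_of (cl n) a m α β hcls ha (fun j => (hm j).pos) hα0 hres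
    hkap (fun k => by
      rw [Finset.even_sum_iff_even_card_odd, filter_true_of_mem (fun j _ => hm j), hcard]
      exact hn) (fun j => Or.inl (hm j)) (fun u v => by
        rw [hα, hβ, FM_cl, FM_cl, FM_cl]; exact hF _ _) k T hT1 hT3 B
  refine ⟨C, hC0, fun N w X hX hw hN hwB => ?_⟩
  have h3 := hC N w X hX hw hN hwB
  have hJ : Fintype.card (Fin 3 × Fin n) = 3 * n := by
    rw [Fintype.card_prod, Fintype.card_fin, Fintype.card_fin]
  rw [hJ] at h3
  refine le_trans (le_of_eq ?_) h3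
  have e1 : ∑ u ∈ Ioc N (N + (X : ℤ)), WBl l m a k T (u, w) =
      ∑ t ∈ Icc 1 X, WBl l m a k T (N + ((t : ℕ) : ℤ), w) := by
    symm
    apply sum_bij (fun (t : ℕ) _ => N + (t : ℤ))
    · intro t ht
      rw [mem_Icc] at ht
      rw [mem_Ioc]
      omega
    · intro t _ t' _ h
      omega
    · intro t ht
      rw [mem_Ioc] at ht
      exact ⟨(t - N).toNat, by rw [mem_Icc]; omega, by omega⟩
    · intro t _
      rfl
  rw [e1]
  unfold TL
  rw [sum_filter]
  refine sum_congr rfl fun t _ => ?_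
  have e2 := WBl_eq l m a k T 0 (N + (t : ℤ)) w
  rw [zero_mul, add_zero] at e2
  rw [e2]
  unfold WB RL
  dsimp only

/-- size of the left end -/
theorem base_le {a b : ℤ} {A B : ℕ} (hA : |a| + |b| + 1 ≤ A) {N w : ℤ} {X : ℕ} (hX : 1 ≤ X)
    (hN : |N| ≤ (X : ℤ) ^ B) (hw : |w| ≤ (X : ℤ) ^ B) :
    |a * N + b * w - A * X| ≤ ((2 * A * X : ℕ) : ℤ) ^ (B + 1) := by
  have hX1 : (1 : ℤ) ≤ X := by exact_mod_cast hX
  have ha0 := abs_nonneg a
  have hb0 := abs_nonneg b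
  have hA1 : (1 : ℤ) ≤ A := by linarith
  have h1 : |a * N + b * w - A * X| ≤ |a| * |N| + |b| * |w| + A * X := by
    have e1 : |a * N + b * w - A * X| ≤ |a * N + b * w| + |(A : ℤ) * X| := abs_sub _ _
    have e2 : |a * N + b * w| ≤ |a * N| + |b * w| := abs_add_le _ _
    have e3 : |(A : ℤ) * X| = A * X := abs_of_nonneg (by positivity)
    rw [abs_mul] at e2
    rw [abs_mul b w] at e2
    rw [e3] at e1
    linarith
  have h2 : |a| * |N| ≤ |a| * (X : ℤ) ^ B := mul_le_mul_of_nonneg_left hN ha0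
  have h3 : |b| * |w| ≤ |b| * (X : ℤ) ^ B := mul_le_mul_of_nonneg_left hw hb0
  have h4 : (X : ℤ) ^ B ≤ (X : ℤ) ^ (B + 1) := pow_le_pow_right₀ hX1 (by omega)
  have h5 : (X : ℤ) ≤ (X : ℤ) ^ (B + 1) := le_self_pow₀ hX1 (by omega)
  have h6 : |a| * (X : ℤ) ^ B + |b| * (X : ℤ) ^ B ≤ A * (X : ℤ) ^ (B + 1) := by
    have e1 : |a| * (X : ℤ) ^ B + |b| * (X : ℤ) ^ B = (|a| + |b|) * (X : ℤ) ^ B := by ring
    rw [e1]
    exact mul_le_mul (by linarith) h4 (by positivity) (by linarith)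
  have h7 : (A : ℤ) * X ≤ A * (X : ℤ) ^ (B + 1) := mul_le_mul_of_nonneg_left h5 (by linarith)
  have h8 : 2 * (A : ℤ) * (X : ℤ) ^ (B + 1) ≤ (2 * (A : ℤ)) ^ (B + 1) * (X : ℤ) ^ (B + 1) :=
    mul_le_mul_of_nonneg_right (le_self_pow₀ (by linarith) (by omega)) (by positivity)
  push_cast
  rw [mul_pow]
  linarith

theorem indL_le {E : Set (ℤ × ℤ)} {s v : Finset ℤ} {w : ℤ} (h : ∀ u ∈ s, (u, w) ∈ E → u ∈ v) :
    ∑ u ∈ s, indP E (u, w) ≤ (v.card : ℝ) := by
  classical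
  have h0 : ∑ u ∈ s, indP E (u, w) = ((s.filter (fun u => (u, w) ∈ E)).card : ℝ) := by
    rw [card_filter]
    push_cast
    refine sum_congr rfl fun u _ => ?_
    unfold indP
    split_ifs <;> rfl
  rw [h0]
  exact_mod_cast card_le_card fun u hu => h u (mem_filter.1 hu).1 (mem_filter.1 hu).2

variable {J : Type} [Fintype J] [DecidableEq J]

/-- the integers of weight less than one are rare -/
theorem bad_line (α β : J → ℤ) (hα : ∀ j, α j ≠ 0) (T : Finset (J → ℝ))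
    (hT1 : ∀ t ∈ T, ∀ j, 0 < t j) (hT2 : ∀ t ∈ T, 1 < ∏ j, t j) (B : ℕ) (ε : ℝ) (hε : 0 < ε) :
    ∃ X0 : ℕ, ∀ (N w : ℤ) (X : ℕ), X0 ≤ X → |N| ≤ (X : ℤ) ^ B → |w| ≤ (X : ℤ) ^ B →
      ∑ u ∈ Ioc N (N + X),
        indP {t | (∀ j, fv α β t.1 t.2 j ≠ 0) ∧ rho T (omB α β t) < 1} (u, w) ≤ ε * X := by
  classical
  obtain ⟨δ, hδ, hδT⟩ := exists_deltaB T hT2
  set m := Fintype.card J with hm
  set A : ℕ := ∑ j, ((α j).natAbs + (β j).natAbs) + 1 with hA
  have hA0 : (0 : ℝ) < A := by rw [hA]; positivity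
  set ε' : ℝ := ε / (2 * (m + 1) * A) with hε'
  have hε'0 : 0 < ε' := by positivity
  obtain ⟨M0, hM0⟩ := normal' Polynomial.X Polynomial.irreducible_X
    (by rw [Polynomial.natDegree_X]; norm_num) (B + 1) δ ε' hδ hε'0
  refine ⟨M0 + 16, fun N w X hX hN hw => ?_⟩
  have hA1 : 1 ≤ A := by rw [hA]; omega
  have hAj : ∀ j, |α j| + |β j| + 1 ≤ (A : ℤ) := by
    intro j
    have h1 : (α j).natAbs + (β j).natAbs ≤ ∑ j, ((α j).natAbs + (β j).natAbs) :=
      single_le_sum (f := fun j => (α j).natAbs + (β j).natAbs) (fun i _ => Nat.zero_le _)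
        (mem_univ j)
    have h2 : (α j).natAbs + (β j).natAbs + 1 ≤ A := by rw [hA]; omega
    have h3 : (((α j).natAbs + (β j).natAbs + 1 : ℕ) : ℤ) ≤ A := by exact_mod_cast h2
    push_cast at h3
    linarith
  have hL : 0 < Real.log (Real.log ((2 * A * X : ℕ) : ℝ)) := by
    have h1 : 16 ≤ 2 * A * X := by nlinarith
    have h2 : (16 : ℝ) ≤ ((2 * A * X : ℕ) : ℝ) := by exact_mod_cast h1
    apply Real.log_pos
    rw [Real.lt_log_iff_exp_lt (by linarith)]
    have := Real.exp_one_lt_d9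
    linarith
  set L := Real.log (Real.log ((2 * A * X : ℕ) : ℝ)) with hLdef
  set S : J → Finset ℤ := fun j => (Ioc N (N + (X : ℤ))).filter
    (fun u => α j * u + β j * w ≠ 0 ∧
      δ * L < |((α j * u + β j * w).natAbs.primeFactors.card : ℝ) - L|) with hS
  have hsub : ∀ u ∈ Ioc N (N + (X : ℤ)),
      (u, w) ∈ {t : ℤ × ℤ | (∀ j, fv α β t.1 t.2 j ≠ 0) ∧ rho T (omB α β t) < 1} →
      u ∈ univ.biUnion S := by
    rintro u hb ⟨h3, h4⟩
    by_contra hcon
    obtain ⟨t0, ht0, hlt⟩ := rho_lt_one h4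
    refine absurd hlt (not_lt.2 (le_of_lt (prod_gtB (hT1 t0 ht0) hL (hδT t0 ht0) _ ?_)))
    intro j
    by_contra h5
    push Not at h5
    exact hcon (mem_biUnion.2 ⟨j, mem_univ _, mem_filter.2 ⟨hb, h3 j, h5⟩⟩)
  have h0 := indL_le hsub
  have h1 : (((univ.biUnion S).card : ℕ) : ℝ) ≤ ∑ j, ((S j).card : ℝ) := by
    exact_mod_cast card_biUnion_le
  have h2 : ∀ j ∈ (univ : Finset J), ((S j).card : ℝ) ≤ ε' * (2 * A * X : ℕ) := by
    intro j _
    have hb0 := abs_nonneg (β j)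
    have e1 := one_d (a := α j) (s := β j * w) (hα j) (A := A) (by linarith [hAj j]) N
      (X := X) (by omega) δ
    have e2 := hM0 (α j * N + β j * w - A * X) (2 * A * X) (by nlinarith)
      (base_le (hAj j) (by omega) hN hw)
    have e3 : ((S j).card : ℝ) ≤
        ((Ex Polynomial.X (α j * N + β j * w - A * X) (2 * A * X) δ).card : ℝ) := by
      exact_mod_cast e1
    exact e3.trans e2
  refine h0.trans (h1.trans ((sum_le_card_nsmul _ _ _ h2).trans ?_))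
  rw [card_univ, nsmul_eq_mul, ← hm]
  push_cast
  have hm0 : (0 : ℝ) ≤ m := Nat.cast_nonneg _
  have h3 : (m : ℝ) * (ε' * (2 * A * X)) = (m * (ε' * (2 * A))) * (X : ℝ) := by ring
  rw [h3]
  refine mul_le_mul_of_nonneg_right ?_ (by positivity)
  have h4 : (m : ℝ) * (ε' * (2 * A)) = ε * (m / (m + 1)) := by
    rw [hε']
    field_simp
  rw [h4]
  have h5 : (m : ℝ) / (m + 1) ≤ 1 := by
    rw [div_le_one (by positivity)]
    linarith
  nlinarith

end Pool.Agent.T6.H39.FL
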