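import Pool.Agent.T6.H39.FL.Cnt
import Pool.Agent.TH344.BF.Main

/-!
# Fixed denominator: weighted moments over short intervals, families given by binary forms

Adapted from `Pool/Agent/TH344/BF/Avg.lean`.
-/

set_option autoImplicit false

namespace Pool.Agent.T6.H39.FL

open Finset Pool.Agent.W262.RK Pool.Agent.W307.RT Pool.Agent.W307.RS Pool.Agent.W307.SE
  Pool.Agent.TH344.DT Pool.Agent.TH344.JG Pool.Agent.TH344.BF Pool.Agent.TH344.BF.AvgB

open Pool.Agent.TH344.DT.AvgP (DD one_le_DD rho_lip' card_large)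
open Pool.Agent.W782.RS (gd_fvZ small)

/-- `∏_{p ∣ w} (1 + 1 / p)` -/
noncomputable def gg (w : ℤ) : ℝ := ∏ p ∈ w.natAbs.primeFactors, (1 + 1 / (p : ℝ))

lemma one_le_gg (w : ℤ) : 1 ≤ gg w := by
  unfold gg
  refine one_le_prod fun p _ => ?_
  have : 0 ≤ 1 / (p : ℝ) := by positivity
  linarith

lemma one_le_gW {c z : ℕ} (hcz : c < z) (w : ℤ) : 1 ≤ gW c z w := by
  unfold gW
  refine one_le_prod fun p hp => ?_
  have h1 : (c : ℝ) < p := by exact_mod_cast (by have := (mem_filter.1 hp).2; omega : c < p)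
  rw [one_le_div (by linarith)]
  have : (0 : ℝ) ≤ c := Nat.cast_nonneg c
  linarith

lemma gW_le {c z : ℕ} (hcz : 2 * c + 2 ≤ z) (w : ℤ) : gW c z w ≤ gg w ^ (2 * c) := by
  unfold gW gg
  rw [← prod_pow]
  have h1 : ∀ p ∈ w.natAbs.primeFactors.filter (fun p => z < p),
      (p : ℝ) / ((p : ℝ) - c) ≤ (1 + 1 / (p : ℝ)) ^ (2 * c) := by
    intro p hp
    have hzp := (mem_filter.1 hp).2
    have h2 : 2 * (c : ℝ) + 2 < p := by exact_mod_cast (by omega : 2 * c + 2 < p)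
    have hc0 : (0 : ℝ) ≤ c := Nat.cast_nonneg c
    have hp0 : (0 : ℝ) < p := by linarith
    have h3 := one_add_mul_le_pow (a := 1 / (p : ℝ)) (by
      have : 0 ≤ 1 / (p : ℝ) := by positivity
      linarith) (2 * c)
    refine le_trans ?_ h3
    rw [div_le_iff₀ (by linarith)]
    push_cast
    have e : (1 + 2 * (c : ℝ) * (1 / p)) * (p - c) = p + c - 2 * c ^ 2 / p := by
      field_simp
      ring
    rw [e]
    have h4 : 2 * (c : ℝ) ^ 2 / p ≤ c := by
      rw [div_le_iff₀ hp0]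
      nlinarith
    linarith
  refine (prod_le_prod (fun p hp => ?_) h1).trans ?_
  · have hzp := (mem_filter.1 hp).2
    have h2 : (c : ℝ) < p := by exact_mod_cast (by omega : c < p)
    exact div_nonneg (Nat.cast_nonneg _) (by linarith)
  · refine prod_le_prod_of_subset_of_one_le (filter_subset _ _) (fun p _ => by positivity)
      fun p _ _ => ?_
    apply one_le_pow₀
    have : 0 ≤ 1 / (p : ℝ) := by positivity
    linarith

variable {J : Type} [Fintype J] [DecidableEq J]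

/-- the integers with nonzero values of the forms -/
def TL (α β : J → ℤ) (N w : ℤ) (X : ℕ) : Finset ℕ :=
  (Icc 1 X).filter (fun t : ℕ => IsCoprime (N + (t : ℤ)) w ∧ ∀ j, fv α β (N + (t : ℤ)) w j ≠ 0)

/-- the scales -/
def ThL (B : ℕ) : Type := {θ : ℤ × ℤ × ℕ // 1 ≤ θ.2.2 ∧ θ.2.1 ≠ 0 ∧ θ.1.natAbs ≤ θ.2.2 ^ B ∧
  θ.2.1.natAbs ≤ θ.2.2 ^ B}

/-- the summand -/
noncomputable def RL (cls : J → Fin 4) (a : Fin 3 → ℤ) (μ : J → ℕ) (α β : J → ℤ) (m : ℕ)
    (T : Finset (J → ℝ)) (N w : ℤ) (t : ℕ) : ℝ :=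
  ((Sel (FM cls a μ (fv α β (N + (t : ℤ)) w) 0) (FM cls a μ (fv α β (N + (t : ℤ)) w) 1)).ncard :
    ℝ) ^ m * rho T (omB α β (N + (t : ℤ), w))

omit [DecidableEq J] in
lemma RL_nonneg (cls : J → Fin 4) (a : Fin 3 → ℤ) (μ : J → ℕ) (α β : J → ℤ) (m : ℕ)
    {T : Finset (J → ℝ)} (hT : ∀ t ∈ T, ∀ j, 0 < t j) (N w : ℤ)
    (t : ℕ) : 0 ≤ RL cls a μ α β m T N w t := by
  unfold RL
  exact mul_nonneg (by positivity) (rho_nonneg hT _)

/-- the sum over the integers coprime to the denominator with nonzero values -/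
theorem avgl_of (cls : J → Fin 4) (a : Fin 3 → ℤ)
    (μ : J → ℕ) (α β : J → ℤ) (hcls : ∀ j, cls j ≠ 3) (ha : ∀ k, a k ≠ 0) (hμ : ∀ j, 1 ≤ μ j)
    (hα : ∀ j, α j ≠ 0) (hR : ∀ j l, j ≠ l → Res α β j l ≠ 0)
    (hκ0 : ∀ j, kapM cls a μ α β j ≠ 0)
    (hev : ∀ k, Even (∑ l ∈ fc cls k, μ l)) (hodd : ∀ j, Odd (μ j) ∨ IsSquare (kapM cls a μ α β j))
    (hF : ∀ u v : ℤ, FM cls a μ (fv α β u v) 0 - FM cls a μ (fv α β u v) 1 =
      FM cls a μ (fv α β u v) 2) (m : ℕ) (T : Finset (J → ℝ)) (hT : ∀ t ∈ T, ∀ j, 0 < t j)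
    (hM : MAFK (ag cls) (kapM cls a μ α β) m T) (B : ℕ) :
    ∃ C : ℝ, 0 ≤ C ∧ ∀ (N w : ℤ) (X : ℕ), 1 ≤ X → w ≠ 0 → N.natAbs ≤ X ^ B → w.natAbs ≤ X ^ B →
      ∑ t ∈ TL α β N w X, RL cls a μ α β m T N w t ≤
        C * X * gg w ^ (2 * Fintype.card J) := by
  classical
  have h1 := nlv
  have h2 := subk
  have hant := Pool.Agent.W307.RS.antu
  have hDD : 1 ≤ DD T := one_le_DD hT
  have hDD0 : 0 < DD T := by linarith
  obtain ⟨z0, hz0⟩ := hM
  obtain ⟨nJ, hN⟩ : ∃ n, n = Fintype.card J := ⟨_, rfl⟩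
  set z : ℕ := z0 + (2 * Fintype.card J + 2) + ∑ k, (a k).natAbs + ∑ j, (α j).natAbs +
    ∑ j, ∑ l, (Res α β j l).natAbs + ∑ j, (kapM cls a μ α β j).natAbs with hz
  have hB : Bg α β z := by
    refine ⟨by omega, fun p hp hzp => ⟨fun j h => ?_, fun j l hjl h => ?_⟩⟩
    · have h1 := Nat.le_of_dvd (Int.natAbs_pos.2 (hα j)) (Int.natCast_dvd.1 h)
      have h2 := single_le_sum (f := fun j => (α j).natAbs) (fun _ _ => Nat.zero_le _) (mem_univ j)
      omega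
    · have h1 := Nat.le_of_dvd (Int.natAbs_pos.2 (hR j l hjl)) (Int.natCast_dvd.1 h)
      have h2 := single_le_sum (f := fun l => (Res α β j l).natAbs) (fun _ _ => Nat.zero_le _)
        (mem_univ l)
      have h3 := single_le_sum (f := fun j => ∑ l, (Res α β j l).natAbs) (fun _ _ => Nat.zero_le _)
        (mem_univ j)
      omega
  have hpa : ∀ p : ℕ, p.Prime → z < p → ∀ k, ¬ (p : ℤ) ∣ a k := by
    intro p hp hzp k h
    have h1 := Nat.le_of_dvd (Int.natAbs_pos.2 (ha k)) (Int.natCast_dvd.1 h)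
    have h2 := single_le_sum (f := fun k => (a k).natAbs) (fun _ _ => Nat.zero_le _) (mem_univ k)
    omega
  have hκz : ∀ j, (kapM cls a μ α β j).natAbs ≤ z := by
    intro j
    have h2 := single_le_sum (f := fun j => (kapM cls a μ α β j).natAbs)
      (fun _ _ => Nat.zero_le _) (mem_univ j)
    omega
  have hz2 : 2 ≤ z := by omega
  have hzz0 : z0 ≤ z := by omega
  have hzc : 2 * Fintype.card J + 2 ≤ z := by omega
  clear_value z
  obtain ⟨C', hC'⟩ := hz0 z hzz0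
  obtain ⟨C, K, y0, hC0, hK1, hcn⟩ := cntl J α β z hB
  obtain ⟨y1, hy1⟩ : ∃ y1, y1 = y0 + 2 * ∑ j, ((α j).natAbs + (β j).natAbs) + 1 := ⟨_, rfl⟩
  have hgW1 : ∀ w : ℤ, 1 ≤ gW (Fintype.card J) z w := fun w => one_le_gW (by omega) w
  have key := hant J ℕ (ThL B) (fun θ => TL α β θ.1.1 θ.1.2.1 θ.1.2.2)
    (fun θ => θ.1.2.2)
    (fun θ t => fv α β (θ.1.1 + (t : ℤ)) θ.1.2.1)
    (fun θ => (θ.1.2.2 : ℝ) * gW (Fintype.card J) z θ.1.2.1) z
    (fun s => (NV (ag cls) s (EK (kapM cls a μ α β) s) : ℝ) ^ m * rho T (om s))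
    (fun θ t => RL cls a μ α β m T θ.1.1 θ.1.2.1 t) (4 ^ m * DD T)
    (C * (4 ^ (z + 2)) ^ m * DD T ^ (nJ * z)) C'
    (((4 ^ (B + 2)) ^ nJ) ^ m * DD T ^ (nJ * (B + 2))) K y1 hzc (fun θ => θ.2.1)
    (fun θ => mul_nonneg (Nat.cast_nonneg _) (by have := hgW1 θ.1.2.1; linarith))
    (fun X0 => ?_)
    (fun θ ω hω => ?_) (fun s => mul_nonneg (by positivity) (rho_nonneg hT _))
    (fun θ t => RL_nonneg _ _ _ _ _ _ hT _ _ _)
    (one_le_mul_of_one_le_of_one_le (one_le_pow₀ (by norm_num)) hDD)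
    (by positivity)
    (one_le_mul_of_one_le_of_one_le
      (one_le_pow₀ (one_le_pow₀ (one_le_pow₀ (by norm_num)))) (one_le_pow₀ hDD)) hK1
    (fun y hy s e hse => growth h2 (ag cls) (kapM cls a μ α β) hT m z y hz2 s e hse)
    hC' ?_
  · obtain ⟨C2, hC2⟩ := key
    refine ⟨max C2 0, le_max_right _ _, fun N w X hX hw h1 h2 => ?_⟩
    refine (hC2 ⟨(N, w, X), hX, hw, h1, h2⟩).trans ?_
    have h3 := gW_le (c := Fintype.card J) (z := z) (by omega) w
    rw [mul_assoc]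
    exact mul_le_mul (le_max_left _ _) (mul_le_mul_of_nonneg_left h3 (Nat.cast_nonneg _))
      (mul_nonneg (Nat.cast_nonneg _) (by
        change 0 ≤ gW (Fintype.card J) z w
        have := hgW1 w
        linarith)) (le_max_right _ _)
  · obtain ⟨D, hD0, hD⟩ := small
      (fun N w X => ∑ t ∈ TL α β N w X, RL cls a μ α β m T N w t)
      (fun _ _ _ => sum_nonneg fun _ _ => RL_nonneg _ _ _ _ _ _ hT _ _ _) B X0
    refine ⟨D, fun θ hθ => ?_⟩
    refine (hD θ.1.1 θ.1.2.1 θ.1.2.2 θ.2.1 hθ θ.2.2.2.1 θ.2.2.2.2).trans ?_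
    have h1 : (1 : ℝ) ≤ (θ.1.2.2 : ℝ) := by exact_mod_cast θ.2.1
    have h3 : (1 : ℝ) ≤ (θ.1.2.2 : ℝ) * gW (Fintype.card J) z θ.1.2.1 := by
      have := hgW1 θ.1.2.1
      nlinarith
    exact le_mul_of_one_le_right hD0 h3
  · simp only [TL, mem_filter] at hω
    exact gd_fvZ hB hω.2.1 hω.2.2
  rintro ⟨⟨N, w, X⟩, hX1, hw0, hN1, hN2⟩ y Y k hy0 hzy hyK hk s hs v hv u hu h8 T' hT' hT2
  simp only at hX1 hw0 hN1 hN2 hyK hk h8 hT' hT2 ⊢
  have hy00 : y0 ≤ y := by omega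
  have hyX : y ≤ X := le_trans (Nat.le_self_pow (by omega) y) hyK
  obtain ⟨g, hg⟩ : ∃ g : ℝ, g = (NV (ag cls) s (EK (kapM cls a μ α β) s) : ℝ) := ⟨_, rfl⟩
  have hg0 : 0 ≤ g := by rw [hg]; exact Nat.cast_nonneg _
  obtain ⟨ρ, hρ⟩ : ∃ ρ : ℝ, ρ = rho T (om s) := ⟨_, rfl⟩
  have hρ0 : 0 ≤ ρ := by rw [hρ]; exact rho_nonneg hT _
  have hnlv := h1 J cls (kapM cls a μ α β) z y s hcls hz2 hκ0 hκz hs
  have hmaj : ∀ t ∈ T', RL cls a μ α β m T N w t ≤
      ((4 ^ (z + 2)) ^ m * DD T ^ (nJ * z)) * (((4 ^ (B + 2)) ^ nJ) ^ m * DD T ^ (nJ * (B + 2))) ^ k *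
        (4 ^ m * DD T) ^ (∑ j, (v j).primeFactors.card) * (g ^ m * ρ) := by
    intro t ht
    have ht1 := hT' ht
    simp only [TL, mem_filter, mem_Icc] at ht1
    obtain ⟨hts, htv, _⟩ := hT2 t ht
    have hsize : ∀ j, (fv α β (N + (t : ℤ)) w j).natAbs ≤ X ^ (B + 2) := by
      intro j
      unfold fv
      have h3 := Int.natAbs_add_le (α j * (N + (t : ℤ))) (β j * w)
      rw [Int.natAbs_mul, Int.natAbs_mul] at h3
      have h4 := single_le_sum (f := fun j => (α j).natAbs + (β j).natAbs)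
        (fun _ _ => Nat.zero_le _) (mem_univ j)
      have h5 : (N + (t : ℤ)).natAbs ≤ X ^ B + X := by
        have h51 : t ≤ X := ht1.1.2
        omega
      have h5' : w.natAbs ≤ X ^ B + X := by
        omega
      have h6 : 2 * ((α j).natAbs + (β j).natAbs) ≤ X := by
        have h4' : (α j).natAbs + (β j).natAbs ≤ ∑ j, ((α j).natAbs + (β j).natAbs) := h4
        have h8' : y0 + 2 * ∑ j, ((α j).natAbs + (β j).natAbs) + 1 ≤ X :=
          le_trans (by rw [← hy1]; exact hy0) hyX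
        generalize (∑ j, ((α j).natAbs + (β j).natAbs)) = sg at h4' h8'
        omega
      have h7 : X ^ B + X ≤ 2 * X ^ (B + 1) := by
        have h71 : X ^ B ≤ X ^ (B + 1) := Nat.pow_le_pow_right hX1 (by omega)
        have h72 : X ≤ X ^ (B + 1) := Nat.le_self_pow (by omega) X
        generalize X ^ (B + 1) = e1 at h71 h72 ⊢
        generalize X ^ B = e2 at h71 ⊢
        omega
      calc (α j * (N + (t : ℤ)) + β j * w).natAbs
          ≤ (α j).natAbs * (N + (t : ℤ)).natAbs + (β j).natAbs * w.natAbs := h3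
        _ ≤ (α j).natAbs * (X ^ B + X) + (β j).natAbs * (X ^ B + X) :=
            add_le_add (Nat.mul_le_mul_left _ h5) (Nat.mul_le_mul_left _ h5')
        _ = ((α j).natAbs + (β j).natAbs) * (X ^ B + X) := by ring
        _ ≤ ((α j).natAbs + (β j).natAbs) * (2 * X ^ (B + 1)) := Nat.mul_le_mul_left _ h7
        _ = 2 * ((α j).natAbs + (β j).natAbs) * X ^ (B + 1) := by ring
        _ ≤ X * X ^ (B + 1) := Nat.mul_le_mul_right _ h6
        _ = X ^ (B + 2) := by ring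
    have hr := (Pool.Agent.TH344.SG.sel2b J cls a μ α β z (B + 2) hcls ha hμ hB hpa hev hκ0 hκz
      hodd hF X y k (N + (t : ℤ)) w ht1.2.1 ht1.2.2 hsize hX1 (by omega) hk).2
    have hts' : S1 z y (fv α β (N + (t : ℤ)) w) = s := hts
    have htv' : S2 z y (fv α β (N + (t : ℤ)) w) = v := htv
    rw [hts', htv'] at hr
    have hr2 := hr.trans (Nat.mul_le_mul_left _ hnlv)
    have hr3 : ((Sel (FM cls a μ (fv α β (N + (t : ℤ)) w) 0)
        (FM cls a μ (fv α β (N + (t : ℤ)) w) 1)).ncard : ℝ) ≤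
        4 ^ (z + 2) * ((4 ^ (B + 2)) ^ nJ) ^ k * 4 ^ (∑ j, (v j).primeFactors.card) * g := by
      rw [hg, hN]
      exact_mod_cast hr2
    -- the weight
    have hw : rho T (omB α β (N + (t : ℤ), w)) ≤
        DD T ^ (∑ j, (v j).primeFactors.card + (nJ * z + nJ * (B + 2) * k)) * ρ := by
      rw [hρ]
      refine rho_lip' hT _ _ (fun j => ?_) _ ?_
      · have := card_S1_le z y (fv α β (N + (t : ℤ)) w) j (ht1.2.2 j)
        rw [hts'] at this
        exact this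
      · have h6 : ∀ j ∈ (univ : Finset J),
            omB α β (N + (t : ℤ), w) j - om s j ≤
            (v j).primeFactors.card + (z + k * (B + 2)) := by
          intro j _
          have := card_f_le z y X k (B + 2) (fv α β (N + (t : ℤ)) w) j
            (ht1.2.2 j) (hsize j) hk
          rw [hts', htv'] at this
          exact this
        refine (sum_le_sum h6).trans (le_of_eq ?_)
        rw [sum_add_distrib, sum_const, card_univ, ← hN, smul_eq_mul]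
        ring
    unfold RL
    refine (mul_le_mul (pow_le_pow_left₀ (Nat.cast_nonneg _) hr3 m) hw (rho_nonneg hT _)
      (by positivity)).trans (le_of_eq ?_)
    simp only [mul_pow, ← pow_mul]
    ring
  obtain ⟨Q, hQ⟩ : ∃ Q : ℝ, Q = C * (X * gW (Fintype.card J) z w) *
        (∏ j, gw 1 (Fintype.card J) (s j)) *
        (∏ j, gw 1 (Fintype.card J) (v j) / v j) * (∏ j, 1 / (u j : ℝ)) /
        (Real.log y) ^ (Fintype.card J) := ⟨_, rfl⟩
  have h3 : (T'.card : ℝ) ≤ Q := by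
    rw [hQ]
    refine le_trans ?_ (hcn N w X y Y hw0 hy00 hzy hyK s hs v hv u hu h8)
    have h4 : T' ⊆ (Icc 1 X).filter (fun t : ℕ => IsCoprime (N + (t : ℤ)) w ∧
        S1 z y (fv α β (N + (t : ℤ)) w) = s ∧ S2 z y (fv α β (N + (t : ℤ)) w) = v ∧
        ∀ j, (u j : ℤ) ∣ fv α β (N + (t : ℤ)) w j) := by
      intro t ht
      have ht1 := hT' ht
      simp only [TL, mem_filter] at ht1
      rw [mem_filter]
      exact ⟨ht1.1, ht1.2.1, (hT2 t ht).1, (hT2 t ht).2.1, (hT2 t ht).2.2⟩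
    exact_mod_cast card_le_card h4
  have hpos1 : 0 ≤ ((4 ^ (z + 2)) ^ m * DD T ^ (nJ * z)) *
      (((4 ^ (B + 2)) ^ nJ) ^ m * DD T ^ (nJ * (B + 2))) ^ k *
        (4 ^ m * DD T) ^ (∑ j, (v j).primeFactors.card) * (g ^ m * ρ) := by positivity
  calc ∑ t ∈ T', RL cls a μ α β m T N w t
      ≤ ∑ _t ∈ T', ((4 ^ (z + 2)) ^ m * DD T ^ (nJ * z)) *
          (((4 ^ (B + 2)) ^ nJ) ^ m * DD T ^ (nJ * (B + 2))) ^ k *
          (4 ^ m * DD T) ^ (∑ j, (v j).primeFactors.card) * (g ^ m * ρ) := sum_le_sum hmaj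
    _ = (T'.card : ℝ) *
          (((4 ^ (z + 2)) ^ m * DD T ^ (nJ * z)) *
          (((4 ^ (B + 2)) ^ nJ) ^ m * DD T ^ (nJ * (B + 2))) ^ k *
          (4 ^ m * DD T) ^ (∑ j, (v j).primeFactors.card) * (g ^ m * ρ)) := by
        rw [sum_const, nsmul_eq_mul]
    _ ≤ Q * (((4 ^ (z + 2)) ^ m * DD T ^ (nJ * z)) *
          (((4 ^ (B + 2)) ^ nJ) ^ m * DD T ^ (nJ * (B + 2))) ^ k *
          (4 ^ m * DD T) ^ (∑ j, (v j).primeFactors.card) * (g ^ m * ρ)) :=
        mul_le_mul_of_nonneg_right h3 hpos1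
    _ = _ := by
        have e2 : (∏ j, ((4 : ℝ) ^ m * DD T) ^ (v j).primeFactors.card *
            (gw 1 (Fintype.card J) (v j) / v j)) =
            (4 ^ m * DD T) ^ (∑ j, (v j).primeFactors.card) *
              ∏ j, (gw 1 (Fintype.card J) (v j) / v j) := by
          rw [prod_mul_distrib, prod_pow_eq_pow_sum]
        rw [e2, hQ, ← hg, ← hρ]
        ring

end Pool.Agent.T6.H39.FL
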