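import Pool.Agent.W839.RS.CNT2S
import Pool.Agent.W340.RT.SVR2

/-!
# Fixed denominator: integers in a short interval with given small prime factors of the values

Adapted from `Pool/Agent/W839/RS/CNT2S.lean`.
-/

set_option autoImplicit false
set_option linter.unusedSectionVars false

namespace Pool.Agent.T6.H39.FL

open Finset Pool.Agent.W262.RK Pool.Agent.W307.RT Pool.Agent.W307.RS Pool.Agent.W839.RS
open Pool.Agent.W372.RK2 (sq_pow_dvd mj mj_primes prod_gw)
open Pool.Agent.W29.RT (dvd_S1 dvd_S2 G2 c0 mj_eq cong prod_pr)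

/-- the factor of the primes dividing `w` -/
noncomputable def gW (c z : ℕ) (w : ℤ) : ℝ :=
  ∏ p ∈ w.natAbs.primeFactors.filter (fun p => z < p), (p : ℝ) / ((p : ℝ) - c)

/-- the count on a line -/
theorem cntl (J : Type) [Fintype J] [DecidableEq J] (α β : J → ℤ) (z : ℕ) (hB : Bg α β z) :
    ∃ (C : ℝ) (K y0 : ℕ), 0 ≤ C ∧ 1 ≤ K ∧ ∀ (N w : ℤ) (X y Y : ℕ), w ≠ 0 → y0 ≤ y → z < y →
      y ^ K ≤ X → ∀ s ∈ Tup J z y, ∀ v ∈ Tup J z y, ∀ u ∈ Tup J y Y,
      (∏ j, s j * v j * u j) ^ 8 ≤ X →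
      (((Icc 1 X).filter (fun t : ℕ => IsCoprime (N + (t : ℤ)) w ∧
        S1 z y (fv α β (N + (t : ℤ)) w) = s ∧ S2 z y (fv α β (N + (t : ℤ)) w) = v ∧
        ∀ j, (u j : ℤ) ∣ fv α β (N + (t : ℤ)) w j)).card : ℝ) ≤
        C * (X * gW (Fintype.card J) z w) * (∏ j, gw 1 (Fintype.card J) (s j)) *
        (∏ j, gw 1 (Fintype.card J) (v j) / v j) * (∏ j, 1 / (u j : ℝ)) /
        (Real.log y) ^ (Fintype.card J) := by
  obtain ⟨C, K, y0, hC, hK, hSV⟩ := Pool.Agent.W340.RT.SVR2.svr2 J z hB.1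
  refine ⟨C, K, y0, hC, hK, ?_⟩
  intro N w X y Y hw0' hy0 hzy hX s hs v hv u hu hsvu
  have hs' := (Pool.Agent.W372.RK2.mem_Tup'.1 hs).1
  have hv' := (Pool.Agent.W372.RK2.mem_Tup'.1 hv).1
  have hu' := (Pool.Agent.W372.RK2.mem_Tup'.1 hu).1
  have hz : 2 ≤ z := by have := hB.1; omega
  have hc : Fintype.card J ≤ z := by have := hB.1; omega
  have hy1 : 1 ≤ y := by omega
  have hyX : y ≤ X := (Nat.le_self_pow (by omega) y).trans hX
  have hX1 : 1 ≤ X := hy1.trans hyX
  have hlogy : 0 < Real.log y := Real.log_pos (by exact_mod_cast (by omega : 1 < y))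
  have hlog0 : 0 < (Real.log y) ^ (Fintype.card J) := pow_pos hlogy _
  have hlog : 0 ≤ (Real.log y) ^ (Fintype.card J) := hlog0.le
  have hgs : ∀ j, 0 ≤ gw 1 (Fintype.card J) (s j) := fun j => gw_nonneg zero_le_one hc (hs' j)
  have hgv : ∀ j, 0 ≤ gw 1 (Fintype.card J) (v j) := fun j => gw_nonneg zero_le_one hc (hv' j)
  have hP1 : 0 ≤ ∏ j, gw 1 (Fintype.card J) (s j) := prod_nonneg fun j _ => hgs j
  have hP2 : 0 ≤ ∏ j, gw 1 (Fintype.card J) (v j) / v j :=
    prod_nonneg fun j _ => div_nonneg (hgv j) (Nat.cast_nonneg _)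
  have hP3 : 0 ≤ ∏ j, 1 / (u j : ℝ) := prod_nonneg fun j _ => by positivity
  set T := (Icc 1 X).filter (fun t : ℕ => IsCoprime (N + (t : ℤ)) w ∧
      S1 z y (fv α β (N + (t : ℤ)) w) = s ∧ S2 z y (fv α β (N + (t : ℤ)) w) = v ∧
      ∀ j, (u j : ℤ) ∣ fv α β (N + (t : ℤ)) w j) with hT
  have hun : ∀ t w : ℤ, IsCoprime t w → ∀ p : ℕ, p.Prime → z < p → ∀ j l,
      (p : ℤ) ∣ fv α β t w j → (p : ℤ) ∣ fv α β t w l → j = l := by
    intro t w htw p hp hzp j l hj hl
    by_contra hne
    have hw := un_ofZ hB htw hp hzp hj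
    have h1 : Res α β j l * w = α j * fv α β t w l - α l * fv α β t w j := by
      unfold Res fv
      ring
    have h3 : (p : ℤ) ∣ Res α β j l * w := by
      rw [h1]
      exact dvd_sub (hl.mul_left _) (hj.mul_left _)
    have hpI : Prime (p : ℤ) := Nat.prime_iff_prime_int.1 hp
    rcases hpI.dvd_or_dvd h3 with h | h
    · exact (hB.2 p hp hzp).2 j l hne h
    · exact hw h
  have hgood : ∀ t ∈ T, G2 z y s v u (fv α β (N + (t : ℤ)) w) := by
    intro t ht
    rw [hT, mem_filter] at ht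
    exact ⟨ht.2.2.1, ht.2.2.2.1, ht.2.2.2.2, hun _ _ ht.2.1⟩
  -- factors
  set g : ℕ → ℝ := fun p => (p : ℝ) / ((p : ℝ) - Fintype.card J) with hg
  have hg1 : ∀ p, z < p → 1 ≤ g p := by
    intro p hp
    have h1 : ((Fintype.card J : ℕ) : ℝ) < p := by exact_mod_cast lt_of_le_of_lt hc hp
    rw [hg]
    simp only
    rw [le_div_iff₀ (by linarith)]
    have : (0 : ℝ) ≤ ((Fintype.card J : ℕ) : ℝ) := Nat.cast_nonneg _
    linarith
  have hGw0 : 0 ≤ gW (Fintype.card J) z w :=
    prod_nonneg fun p hp => zero_le_one.trans (hg1 p (mem_filter.1 hp).2)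
  rcases T.eq_empty_or_nonempty with hTe | ⟨t0, ht0⟩
  · rw [hTe, card_empty, Nat.cast_zero]
    apply div_nonneg _ hlog
    positivity
  set m := ∏ j, mj c0 s v u j with hm
  have hmj1 : ∀ j, 1 ≤ mj c0 s v u j := by
    intro j
    rw [mj_eq]
    have h1 := dv_pos (hs' j)
    have h2 := dv_pos (hv' j)
    have h3 := dv_pos (hu' j)
    exact Nat.succ_le_of_lt (by positivity)
  have hm1 : 1 ≤ m := Nat.succ_le_of_lt (prod_pos fun j _ => hmj1 j)
  have hm4 : m ^ 4 ≤ X := by
    refine le_trans ?_ hsvu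
    have h1 : m ≤ (∏ j, s j * v j * u j) ^ 2 := by
      rw [← prod_pow]
      apply prod_le_prod'
      intro j _
      rw [mj_eq]
      have h1 := dv_pos (hs' j)
      have h3 := dv_pos (hu' j)
      calc s j * v j ^ 2 * u j ≤ (s j * s j) * v j ^ 2 * (u j * u j) := by
            apply Nat.mul_le_mul
            · apply Nat.mul_le_mul_right
              nlinarith
            · nlinarith
        _ = (s j * v j * u j) ^ 2 := by ring
    calc m ^ 4 ≤ ((∏ j, s j * v j * u j) ^ 2) ^ 4 := Nat.pow_le_pow_left h1 4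
      _ = (∏ j, s j * v j * u j) ^ 8 := by rw [← pow_mul]
  have hsq := hgood t0 ht0
  set Gm : ℝ := ∏ p ∈ m.primeFactors.filter (fun p => p ∈ PS z y), g p with hGm
  have hGm0 : 0 ≤ Gm := prod_nonneg fun p hp =>
    zero_le_one.trans (hg1 p (mem_PS.1 (mem_filter.1 hp).2).1.1)
  have hw0 : w.natAbs ≠ 0 := Int.natAbs_ne_zero.2 hw0'
  have hmul : ∏ p ∈ (m * w.natAbs).primeFactors.filter (fun p => p ∈ PS z y), g p ≤
      Gm * gW (Fintype.card J) z w := by
    have e1 : (m * w.natAbs).primeFactors.filter (fun p => p ∈ PS z y) =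
        m.primeFactors.filter (fun p => p ∈ PS z y) ∪
          (w.natAbs.primeFactors.filter (fun p => p ∈ PS z y) \
            m.primeFactors.filter (fun p => p ∈ PS z y)) := by
      rw [union_sdiff_self_eq_union, Nat.primeFactors_mul (by omega) hw0, filter_union]
    rw [e1, prod_union disjoint_sdiff]
    apply mul_le_mul_of_nonneg_left _ hGm0
    have e2 : (w.natAbs.primeFactors.filter (fun p => p ∈ PS z y) \
        m.primeFactors.filter (fun p => p ∈ PS z y)) ⊆
        w.natAbs.primeFactors.filter (fun p => z < p) := by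
      intro p hp
      rw [mem_sdiff, mem_filter] at hp
      rw [mem_filter]
      exact ⟨hp.1.1, (mem_PS.1 hp.1.2).1.1⟩
    unfold gW
    rw [← prod_sdiff e2]
    apply le_mul_of_one_le_left
    · exact prod_nonneg fun p hp => zero_le_one.trans (hg1 p (mem_filter.1 (e2 hp)).2)
    · have h1 : ∀ p ∈ w.natAbs.primeFactors.filter (fun p => z < p) \
          (w.natAbs.primeFactors.filter (fun p => p ∈ PS z y) \
            m.primeFactors.filter (fun p => p ∈ PS z y)), (1 : ℝ) ≤ g p := by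
        intro p hp
        exact hg1 p (mem_filter.1 (mem_sdiff.1 hp).1).2
      calc (1 : ℝ) = ∏ p ∈ w.natAbs.primeFactors.filter (fun p => z < p) \
          (w.natAbs.primeFactors.filter (fun p => p ∈ PS z y) \
            m.primeFactors.filter (fun p => p ∈ PS z y)), (1 : ℝ) := by simp
        _ ≤ _ := prod_le_prod (fun _ _ => zero_le_one) h1
  have hcard : (T.card : ℝ) ≤ C * (X / m) * (Gm * gW (Fintype.card J) z w) /
        (Real.log y) ^ (Fintype.card J) := by
    set β' : J → ℤ := fun j => α j * N + β j * w with hβ'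
    have hcond : ∀ p ∈ PS z y, ¬ p ∣ m * w.natAbs → (∀ j, ¬ (p : ℤ) ∣ α j) ∧
        ∀ j l, j ≠ l → ¬ (p : ℤ) ∣ Res α β' j l := by
      intro p hp hpm
      have hpp := (mem_PS.1 hp).2
      have hzp := (mem_PS.1 hp).1.1
      refine ⟨(hB.2 p hpp hzp).1, fun j l hjl hd => ?_⟩
      have h1 : Res α β' j l = Res α β j l * w := by
        unfold Res
        rw [hβ']
        ring
      rw [h1] at hd
      have hpI : Prime (p : ℤ) := Nat.prime_iff_prime_int.1 hpp
      rcases hpI.dvd_or_dvd hd with h | h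
      · exact (hB.2 p hpp hzp).2 j l hjl h
      · exact hpm ((Int.natCast_dvd.1 h).mul_left _)
    have hbd : ∀ r : ℕ, (((Icc 1 X).filter (fun t : ℕ => t ≡ r [MOD m] ∧
        ∀ p ∈ PS z y, ¬ p ∣ m * w.natAbs →
        ∀ j, ¬ (p : ℤ) ∣ ff α β' t j)).card : ℝ) ≤
        C * (X / m) * (Gm * gW (Fintype.card J) z w) /
          (Real.log y) ^ (Fintype.card J) := by
      intro r
      refine (hSV X y hy0 hzy hX α β' m (m * w.natAbs) r hm1
        (dvd_mul_right _ _) (mul_ne_zero (by omega) hw0) hm4 hcond).trans ?_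
      apply div_le_div_of_nonneg_right _ hlog
      apply mul_le_mul_of_nonneg_left hmul
      positivity
    refine le_trans ?_ (hbd t0)
    rw [Nat.cast_le]
    apply card_le_card_of_injOn (fun t : ℕ => t)
    · intro t ht
      have ht' : t ∈ T := mem_coe.1 ht
      have g1 := hgood t ht'
      have htX : t ∈ Icc 1 X := (mem_filter.1 ht').1
      simp only [coe_filter, Set.mem_ofPred_eq]
      refine ⟨htX, ?_, ?_⟩
      · have h1 := cong (α := α) (fun p hp hz => (hB.2 p hp hz).1) hzy hs hv hu g1 hsq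
          (t := (t : ℤ)) (t' := (t0 : ℤ)) (fun j => by unfold fv; ring)
        rw [← hm] at h1
        exact ((Nat.modEq_iff_dvd.2 h1)).symm
      · intro p hpP hpm j hpf
        have hp := (mem_PS.1 hpP).2
        apply hpm
        apply Dvd.dvd.mul_right
        rw [hm]
        refine Dvd.dvd.trans ?_ (dvd_prod_of_mem _ (mem_univ j))
        rw [mj_eq]
        have hff : ff α β' (t : ℤ) j = fv α β (N + (t : ℤ)) w j := by
          unfold ff fv
          rw [hβ']
          ring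
        rw [hff] at hpf
        by_cases h2 : (p : ℤ) ^ 2 ∣ fv α β (N + (t : ℤ)) w j
        · have h3 : p ∣ v j := by
            rw [← g1.hv]
            exact (dvd_S2 hp).2 ⟨hpP, h2⟩
          exact (((h3.pow two_ne_zero).mul_left _).mul_right _)
        · have h3 : p ∣ s j := by
            rw [← g1.hs]
            exact (dvd_S1 hp).2 ⟨hpP, hpf, h2⟩
          exact ((h3.mul_right _).mul_right _)
    · intro a _ b _ hab
      exact hab
  have hGmeq : Gm = ∏ j, ((s j * gw 1 (Fintype.card J) (s j)) *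
      (v j * gw 1 (Fintype.card J) (v j))) := prod_pr hs hv hu hsq
  have hterm : ∀ j, ((s j *
      gw 1 (Fintype.card J) (s j)) * (v j * gw 1 (Fintype.card J) (v j))) /
      ((mj c0 s v u j : ℕ) : ℝ) = gw 1 (Fintype.card J) (s j) *
      (gw 1 (Fintype.card J) (v j) / v j) * (1 / (u j : ℝ)) := by
    intro j
    have h1 : (s j : ℝ) ≠ 0 := Nat.cast_ne_zero.2 (dv_ne_zero (hs' j))
    have h2 : (v j : ℝ) ≠ 0 := Nat.cast_ne_zero.2 (dv_ne_zero (hv' j))
    have h3 : (u j : ℝ) ≠ 0 := Nat.cast_ne_zero.2 (dv_ne_zero (hu' j))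
    rw [mj_eq]
    rw [Nat.cast_mul, Nat.cast_mul, Nat.cast_pow]
    field_simp
  have hprod : (∏ j, ((s j * gw 1 (Fintype.card J) (s j)) *
      (v j * gw 1 (Fintype.card J) (v j)))) /
      (∏ j, ((mj c0 s v u j : ℕ) : ℝ)) = (∏ j, gw 1 (Fintype.card J) (s j)) *
        (∏ j, gw 1 (Fintype.card J) (v j) / v j) * (∏ j, 1 / (u j : ℝ)) := by
    rw [← prod_div_distrib, ← prod_mul_distrib, ← prod_mul_distrib]
    exact prod_congr rfl fun j _ => hterm j
  -- the right side
  set R : ℝ := (∏ j, gw 1 (Fintype.card J) (s j)) *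
        (∏ j, gw 1 (Fintype.card J) (v j) / v j) * (∏ j, 1 / (u j : ℝ)) with hR
  have hRm : Gm / m = R := by
    rw [← hprod, hGmeq, hm, Nat.cast_prod]
  refine hcard.trans (le_of_eq ?_)
  have e : C * (X / m) * (Gm * gW (Fintype.card J) z w) =
      C * (X * gW (Fintype.card J) z w) * R := by
    rw [← hRm]
    ring
  rw [e, hR]
  ring

end Pool.Agent.T6.H39.FL
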